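import Mathlib
import Pool.Agent.H58.Dc3

set_option autoImplicit false

namespace Pool.Agent.Results.MP_39b2af_an.Exact

open Pool.Agent.H58.Dc

theorem result (𝕜 : Type) [RCLike 𝕜] (l : ℝ) (h0 : 0 < l) (h1 : l ≤ 1) :
    (∀ (p : ENNReal) [Fact (1 ≤ p)], p ≠ ⊤ →
      Exact 𝕜 (fun n : ℕ => (lp.single p n (1 : 𝕜) : lp (fun _ : ℕ => 𝕜) p)) l) ∧
    Exact 𝕜 (e0 𝕜) l :=
  ⟨fun p _ hp => lp_case 𝕜 p hp h0 h1, c0_case 𝕜 h0 h1⟩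

end Pool.Agent.Results.MP_39b2af_an.Exact
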